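import Mathlib

/-! Pollard's theorem on popular sums modulo a prime. -/

namespace Pool.Agent.H.MP_364e44_co
open Finset

section general
variable {G : Type} [AddCommGroup G] [DecidableEq G] [Fintype G]

/-- number of representations of `x` as `a + b` -/
def rep (A B : Finset G) (x : G) : ℕ := ∑ y : G, if y ∈ A ∧ x - y ∈ B then 1 else 0

lemma sum_rep (A B : Finset G) : ∑ x, rep A B x = A.card * B.card := by
  unfold rep
  rw [sum_comm]
  have h : ∀ y : G, (∑ x : G, if y ∈ A ∧ x - y ∈ B then 1 else 0) = if y ∈ A then B.card else 0 := by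
    intro y
    by_cases hy : y ∈ A
    · simp only [hy, true_and, if_true]
      rw [← Equiv.sum_comp (Equiv.addRight y)]
      simp
    · simp [hy]
  simp_rw [h]
  simp

lemma rep_le (A B : Finset G) (x : G) : rep A B x ≤ B.card := by
  unfold rep
  calc _ ≤ ∑ y : G, if x - y ∈ B then 1 else 0 := by
        refine sum_le_sum fun y _ => ?_
        by_cases h1 : y ∈ A <;> by_cases h2 : x - y ∈ B <;> simp [h1, h2]
    _ = B.card := by
        rw [← Equiv.sum_comp (Equiv.subLeft x)]
        simp

lemma rep_shift (A B : Finset G) (c x : G) :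
    rep (A.image (· + c)) B (x + c) = rep A B x := by
  unfold rep
  rw [← Equiv.sum_comp (Equiv.addRight c)]
  refine sum_congr rfl fun y _ => ?_
  simp

lemma rep_split (A B : Finset G) (x : G) :
    rep A B x = rep (A ∪ B) (A ∩ B) x + rep (A \ B) (B \ A) x := by
  unfold rep
  rw [← sum_add_distrib]
  have key : ∀ F H : G → ℕ, (∀ y, F y + F (x - y) = H y + H (x - y)) → ∑ y, F y = ∑ y, H y := by
    intro F H h
    have h1 : ∑ y, F (x - y) = ∑ y, F y := Equiv.sum_comp (Equiv.subLeft x) F
    have h2 : ∑ y, H (x - y) = ∑ y, H y := Equiv.sum_comp (Equiv.subLeft x) H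
    have h3 : ∑ y, (F y + F (x - y)) = ∑ y, (H y + H (x - y)) := sum_congr rfl fun y _ => h y
    rw [sum_add_distrib, sum_add_distrib, h1, h2] at h3
    omega
  apply key
  intro y
  simp only [sub_sub_cancel, mem_union, mem_inter, mem_sdiff]
  by_cases h1 : y ∈ A <;> by_cases h2 : y ∈ B <;> by_cases h3 : x - y ∈ A <;>
    by_cases h4 : x - y ∈ B <;> simp [h1, h2, h3, h4]

end general

variable {p : ℕ} [Fact p.Prime]

lemma exists_shift (A B : Finset (ZMod p)) (hA : A.Nonempty) (hA' : A.card < p)
    (hB : 2 ≤ B.card) :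
    ∃ c : ZMod p, ((A.image (· + c)) ∩ B).Nonempty ∧ ((A.image (· + c)) ∩ B).card < B.card := by
  by_contra hcon
  push Not at hcon
  obtain ⟨b1, hb1, b2, hb2, hne⟩ := one_lt_card.1 (show 1 < B.card by omega)
  have step : ∀ a ∈ A, a + (b2 - b1) ∈ A := by
    intro a ha
    have h1 := hcon (b1 - a) ⟨b1, by
      simp only [mem_inter, mem_image]; exact ⟨⟨a, ha, by ring⟩, hb1⟩⟩
    have h2 : (A.image (· + (b1 - a))) ∩ B = B := eq_of_subset_of_card_le inter_subset_right h1
    have h3 : b2 ∈ (A.image (· + (b1 - a))) ∩ B := by rw [h2]; exact hb2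
    simp only [mem_inter, mem_image] at h3
    obtain ⟨⟨a', ha', e⟩, -⟩ := h3
    have : a + (b2 - b1) = a' := by rw [← e]; ring
    rw [this]; exact ha'
  obtain ⟨a0, ha0⟩ := hA
  have iter : ∀ n : ℕ, a0 + (n : ZMod p) * (b2 - b1) ∈ A := by
    intro n
    induction n with
    | zero => simpa using ha0
    | succ n ih =>
      have := step _ ih
      convert this using 1
      push_cast; ring
  have hd : b2 - b1 ≠ 0 := sub_ne_zero.2 hne.symm
  have hall : A = univ := by
    refine eq_univ_of_forall fun z => ?_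
    have := iter (((z - a0) / (b2 - b1)).val)
    rw [ZMod.natCast_zmod_val, div_mul_cancel₀ _ hd] at this
    simpa using this
  rw [hall, card_univ, ZMod.card] at hA'
  omega

theorem pollard (n : ℕ) : ∀ (A B : Finset (ZMod p)) (t : ℕ), B.card = n → t ≤ A.card →
    t ≤ B.card → A.card + B.card ≤ p + t →
    t * (A.card + B.card) ≤ ∑ x, min t (rep A B x) + t * t := by
  induction n using Nat.strong_induction_on with
  | _ n ih =>
  intro A B t hn hA hB hp
  rcases Nat.eq_zero_or_pos t with rfl | ht
  · simp
  rcases eq_or_lt_of_le hB with hB1 | hB1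
  · have : ∑ x, min t (rep A B x) = ∑ x, rep A B x :=
      sum_congr rfl fun x _ => min_eq_right (hB1 ▸ rep_le A B x)
    rw [this, sum_rep, ← hB1]
    nlinarith
  obtain ⟨c, hc1, hc2⟩ := exists_shift A B (card_pos.1 (by omega)) (by omega) (by omega)
  set A' := A.image (· + c) with hA'
  have hcard : A'.card = A.card := card_image_of_injective _ (add_left_injective c)
  have hsum : ∑ x, min t (rep A B x) = ∑ x, min t (rep A' B x) := by
    rw [← Equiv.sum_comp (Equiv.addRight c) (fun x => min t (rep A' B x))]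
    refine sum_congr rfl fun x _ => ?_
    simp only [Equiv.coe_addRight, hA', rep_shift]
  rw [hsum, ← hcard]
  rw [← hcard] at hA hp
  have hui : (A' ∪ B).card + (A' ∩ B).card = A'.card + B.card := card_union_add_card_inter _ _
  have h1 : (A' \ B).card + (A' ∩ B).card = A'.card := card_sdiff_add_card_inter _ _
  have h2 : (B \ A').card + (A' ∩ B).card = B.card := by
    rw [inter_comm]; exact card_sdiff_add_card_inter _ _
  have hv : 0 < (A' ∩ B).card := card_pos.2 hc1
  by_cases hvt : t ≤ (A' ∩ B).card
  · have := ih _ (hn ▸ hc2) (A' ∪ B) (A' ∩ B) t rfl (by omega) hvt (by omega)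
    rw [hui] at this
    refine this.trans (Nat.add_le_add_right (sum_le_sum fun x _ => ?_) _)
    rw [rep_split A' B x]
    exact min_le_min_left _ (Nat.le_add_right _ _)
  · obtain ⟨w, hw⟩ : ∃ w, t = (A' ∩ B).card + w := ⟨t - (A' ∩ B).card, by omega⟩
    have := ih (B \ A').card (by omega) (A' \ B) (B \ A') w rfl (by omega) (by omega) (by omega)
    have h3 : ∑ x, (rep (A' ∪ B) (A' ∩ B) x + min w (rep (A' \ B) (B \ A') x)) ≤
        ∑ x, min t (rep A' B x) := by
      refine sum_le_sum fun x _ => ?_
      rw [rep_split A' B x]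
      have := rep_le (A' ∪ B) (A' ∩ B) x
      omega
    rw [sum_add_distrib, sum_rep] at h3
    generalize ∑ x, min t (rep A' B x) = S at *
    generalize ∑ x, min w (rep (A' \ B) (B \ A') x) = S' at *
    generalize (A' ∪ B).card = u at *
    generalize (A' ∩ B).card = v at *
    generalize (A' \ B).card = a at *
    generalize (B \ A').card = b at *
    have e1 : A'.card + B.card = a + b + 2 * v := by omega
    have e2 : u = a + b + v := by omega
    rw [e1, hw]
    subst e2
    nlinarith

end Pool.Agent.H.MP_364e44_co
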