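import Mathlib

/-! Discrete Fourier analysis on `ZMod n`: convolution, Bohr sets. -/

namespace Pool.Agent.H.MP_364e44_co
open Finset

variable {n : ℕ} [NeZero n]

/-- the standard additive character -/
noncomputable def ch (x : ZMod n) : ℂ := ZMod.stdAddChar x

lemma ch_add (x y : ZMod n) : ch (x + y) = ch x * ch y := AddChar.map_add_eq_mul _ _ _

lemma norm_ch (x : ZMod n) : ‖ch x‖ = 1 := AddChar.norm_apply _ _

lemma ch_neg (x : ZMod n) : ch (-x) = (starRingEnd ℂ) (ch x) := AddChar.map_neg_eq_conj _ _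

lemma sum_ch (b : ZMod n) : ∑ r : ZMod n, ch (r * b) = if b = 0 then (n : ℂ) else 0 := by
  have := AddChar.sum_mulShift b (ZMod.isPrimitive_stdAddChar n)
  unfold ch
  rw [this, ZMod.card]
  split_ifs <;> simp

/-- Fourier transform -/
noncomputable def hat (f : ZMod n → ℝ) (r : ZMod n) : ℂ := ∑ x, (f x : ℂ) * ch (r * x)

/-- convolution -/
noncomputable def conv (f g : ZMod n → ℝ) (x : ZMod n) : ℝ := ∑ y, f y * g (x - y)

lemma hat_conv (f g : ZMod n → ℝ) (r : ZMod n) : hat (conv f g) r = hat f r * hat g r := by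
  unfold hat conv
  rw [sum_mul_sum]
  simp only [Complex.ofReal_sum, sum_mul]
  rw [sum_comm]
  refine sum_congr rfl fun y _ => ?_
  rw [← Equiv.sum_comp (Equiv.addRight y)]
  refine sum_congr rfl fun z _ => ?_
  simp only [Equiv.coe_addRight, add_sub_cancel_right, mul_add, ch_add]
  push_cast; ring

lemma sum_hat (f : ZMod n → ℝ) : ∑ r, hat f r = (n : ℂ) * f 0 := by
  unfold hat
  rw [sum_comm]
  simp_rw [← mul_sum, sum_ch]
  rw [sum_eq_single 0]
  · simp [mul_comm]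
  · intro b _ hb; simp [hb]
  · simp

lemma sum_conv (f g : ZMod n → ℝ) : ∑ x, conv f g x = (∑ x, f x) * ∑ x, g x := by
  unfold conv
  rw [sum_comm, sum_mul]
  refine sum_congr rfl fun y _ => ?_
  rw [← mul_sum, Equiv.sum_comp (Equiv.subRight y) g |>.symm]
  rfl

lemma conv_nonneg {f g : ZMod n → ℝ} (hf : ∀ x, 0 ≤ f x) (hg : ∀ x, 0 ≤ g x) (x : ZMod n) :
    0 ≤ conv f g x := sum_nonneg fun _ _ => mul_nonneg (hf _) (hg _)

lemma conv_mono {f g f' g' : ZMod n → ℝ} (hf : ∀ x, 0 ≤ f x) (hg : ∀ x, 0 ≤ g x)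
    (h1 : ∀ x, f x ≤ f' x) (h2 : ∀ x, g x ≤ g' x) (x : ZMod n) : conv f g x ≤ conv f' g' x :=
  sum_le_sum fun _ _ => mul_le_mul (h1 _) (h2 _) (hg _) ((hf _).trans (h1 _))

lemma conv_smul (f g : ZMod n → ℝ) (a b : ℝ) (x : ZMod n) :
    conv (fun y => a * f y) (fun y => b * g y) x = a * b * conv f g x := by
  unfold conv
  rw [mul_sum]
  exact sum_congr rfl fun y _ => by ring

lemma conv_ne_zero {f g : ZMod n → ℝ} {x : ZMod n} (h : conv f g x ≠ 0) :
    ∃ y z, f y ≠ 0 ∧ g z ≠ 0 ∧ y + z = x := by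
  obtain ⟨y, -, hy⟩ := exists_ne_zero_of_sum_ne_zero h
  exact ⟨y, x - y, left_ne_zero_of_mul hy, right_ne_zero_of_mul hy, by ring⟩

/-- five-fold convolution at zero -/
noncomputable def c5 (f : ZMod n → ℝ) : ℝ := conv (conv (conv f f) (conv f f)) f 0

lemma c5_eq (f : ZMod n → ℝ) : (n : ℂ) * c5 f = ∑ r, hat f r ^ 5 := by
  unfold c5
  rw [← sum_hat]
  refine sum_congr rfl fun r _ => ?_
  simp only [hat_conv]; ring

lemma hat_conj {f : ZMod n → ℝ} (hf : ∀ x, f (-x) = f x) (r : ZMod n) :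
    (starRingEnd ℂ) (hat f r) = hat f r := by
  unfold hat
  rw [map_sum, ← Equiv.sum_comp (Equiv.neg (ZMod n))]
  refine sum_congr rfl fun x _ => ?_
  simp only [Equiv.neg_apply, map_mul, Complex.conj_ofReal, hf, mul_neg, ch_neg, Complex.conj_conj]

lemma sum_norm_four {f : ZMod n → ℝ} (hf : ∀ x, f (-x) = f x) :
    ∑ r, ‖hat f r‖ ^ 4 = n * conv (conv f f) (conv f f) 0 := by
  have h := sum_hat (conv (conv f f) (conv f f))
  have h2 : ∀ r, hat (conv (conv f f) (conv f f)) r = ((‖hat f r‖ ^ 4 : ℝ) : ℂ) := by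
    intro r
    simp only [hat_conv]
    have h3 := Complex.mul_conj' (hat f r)
    rw [hat_conj hf] at h3
    rw [h3]; push_cast; ring
  simp_rw [h2] at h
  exact_mod_cast h

lemma norm_hat_le {f : ZMod n → ℝ} (hf : ∀ x, 0 ≤ f x) (r : ZMod n) : ‖hat f r‖ ≤ ∑ x, f x := by
  unfold hat
  refine (norm_sum_le _ _).trans (le_of_eq (sum_congr rfl fun x _ => ?_))
  rw [norm_mul, norm_ch, mul_one, Complex.norm_real, Real.norm_of_nonneg (hf x)]

lemma norm_pow_five_sub_one {z : ℂ} (hz : ‖z‖ ≤ 1) : ‖z ^ 5 - 1‖ ≤ 5 * ‖z - 1‖ := by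
  have e : z ^ 5 - 1 = (z ^ 4 + z ^ 3 + z ^ 2 + z + 1) * (z - 1) := by ring
  rw [e, norm_mul]
  refine mul_le_mul_of_nonneg_right ?_ (norm_nonneg _)
  have h : ∀ k : ℕ, ‖z ^ k‖ ≤ 1 := fun k => by
    rw [norm_pow]; exact pow_le_one₀ (norm_nonneg _) hz
  have h4 := h 4
  have h3 := h 3
  have h2 := h 2
  have a1 := norm_add_le (z ^ 4 + z ^ 3 + z ^ 2 + z) 1
  have a2 := norm_add_le (z ^ 4 + z ^ 3 + z ^ 2) z
  have a3 := norm_add_le (z ^ 4 + z ^ 3) (z ^ 2)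
  have a4 := norm_add_le (z ^ 4) (z ^ 3)
  rw [norm_one] at a1
  linarith

/-- one pigeonhole step -/
lemma pigeon {α : Type} [DecidableEq α] (M : ℕ) (hM : 0 < M) (V : Finset α) (g : α → ℂ)
    (hg : ∀ x, ‖g x‖ ≤ 1) :
    ∃ W ⊆ V, V.card ≤ (2 * M + 1) ^ 2 * W.card ∧ ∀ u ∈ W, ∀ v ∈ W, ‖g u - g v‖ ≤ 2 / M := by
  classical
  set T : Finset (ℤ × ℤ) := Icc (-(M : ℤ)) M ×ˢ Icc (-(M : ℤ)) M with hT
  set φ : α → ℤ × ℤ := fun x => (⌊(M : ℝ) * (g x).re⌋, ⌊(M : ℝ) * (g x).im⌋) with hφ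
  have hM' : (0 : ℝ) < M := by exact_mod_cast hM
  have aux : ∀ s : ℝ, |s| ≤ 1 → ⌊(M : ℝ) * s⌋ ∈ Icc (-(M : ℤ)) M := by
    intro s hs
    obtain ⟨h1, h2⟩ := abs_le.1 hs
    rw [mem_Icc]
    constructor
    · rw [Int.le_floor]; push_cast; nlinarith
    · have : ((⌊(M : ℝ) * s⌋ : ℤ) : ℝ) ≤ (M : ℤ) := by
        have := Int.floor_le ((M : ℝ) * s)
        push_cast; nlinarith
      exact_mod_cast this
  have hmaps : ∀ x ∈ V, φ x ∈ T := fun x _ => mem_product.2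
    ⟨aux _ ((Complex.abs_re_le_norm _).trans (hg x)), aux _ ((Complex.abs_im_le_norm _).trans (hg x))⟩
  have hTc : T.card = (2 * M + 1) ^ 2 := by
    rw [hT, card_product, Int.card_Icc]
    have : ((M : ℤ) + 1 - -(M : ℤ)).toNat = 2 * M + 1 := by omega
    rw [this]; ring
  have hTne : T.Nonempty := card_pos.1 (by rw [hTc]; positivity)
  obtain ⟨y, hy, hmax⟩ := exists_max_image T (fun y => (V.filter (fun x => φ x = y)).card) hTne
  refine ⟨V.filter (fun x => φ x = y), filter_subset _ _, ?_, ?_⟩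
  · rw [card_eq_sum_card_fiberwise hmaps, ← hTc]
    exact (sum_le_card_nsmul _ _ _ hmax).trans (by simp)
  · intro u hu v hv
    have e : φ u = φ v := by rw [(mem_filter.1 hu).2, (mem_filter.1 hv).2]
    have aux2 : ∀ s s' : ℝ, ⌊(M : ℝ) * s⌋ = ⌊(M : ℝ) * s'⌋ → |s - s'| ≤ 1 / M := by
      intro s s' h
      have := Int.abs_sub_lt_one_of_floor_eq_floor h
      rw [← mul_sub, abs_mul, abs_of_pos hM'] at this
      rw [le_div_iff₀ hM']; linarith
    have e1 := aux2 _ _ (congrArg Prod.fst e)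
    have e2 := aux2 _ _ (congrArg Prod.snd e)
    have := Complex.norm_le_abs_re_add_abs_im (g u - g v)
    simp only [Complex.sub_re, Complex.sub_im] at this
    have e3 : (2 : ℝ) / M = 1 / M + 1 / M := by ring
    linarith

lemma bohr0 (M : ℕ) (hM : 0 < M) (Γ : Finset (ZMod n)) :
    ∃ W : Finset (ZMod n), n ≤ ((2 * M + 1) ^ 2) ^ Γ.card * W.card ∧
      ∀ r ∈ Γ, ∀ u ∈ W, ∀ v ∈ W, ‖ch (r * u) - ch (r * v)‖ ≤ 2 / M := by
  induction Γ using Finset.induction_on with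
  | empty => exact ⟨univ, by simp [ZMod.card], by simp⟩
  | insert r Γ hr ih =>
    obtain ⟨V, hV1, hV2⟩ := ih
    obtain ⟨W, hW, hW1, hW2⟩ := pigeon M hM V (fun x => ch (r * x)) (fun x => (norm_ch _).le)
    refine ⟨W, ?_, ?_⟩
    · rw [card_insert_of_notMem hr, pow_succ _ Γ.card, mul_assoc]
      exact hV1.trans (Nat.mul_le_mul_left _ hW1)
    · intro s hs u hu v hv
      rcases mem_insert.1 hs with rfl | hs
      · exact hW2 u hu v hv
      · exact hV2 s hs u (hW hu) v (hW hv)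

lemma bohr (M : ℕ) (hM : 0 < M) (Γ : Finset (ZMod n)) :
    ∃ U : Finset (ZMod n), n ≤ ((2 * M + 1) ^ 2) ^ Γ.card * U.card ∧
      ∀ r ∈ Γ, ∀ u ∈ U, ‖ch (r * u) - 1‖ ≤ 2 / M := by
  obtain ⟨W, h1, h2⟩ := bohr0 M hM Γ
  have hW : W.Nonempty := by
    rw [← card_pos]
    have := NeZero.pos n
    rcases Nat.eq_zero_or_pos W.card with h | h
    · rw [h] at h1; omega
    · exact h
  obtain ⟨v, hv⟩ := hW
  refine ⟨W.image (· - v), ?_, ?_⟩
  · rwa [card_image_of_injective _ (sub_left_injective)]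
  · intro r hr u hu
    obtain ⟨w, hw, rfl⟩ := mem_image.1 hu
    have e : ch (r * w) - ch (r * v) = (ch (r * (w - v)) - 1) * ch (r * v) := by
      rw [sub_mul, ← ch_add, one_mul]; congr 2; ring
    have := h2 r hr w hw v hv
    rwa [e, norm_mul, norm_ch, mul_one] at this

end Pool.Agent.H.MP_364e44_co
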