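import Pool.Agent.H.MP_364e44_co.A
import Pool.Agent.H.MP_364e44_co.B

/-! The dense model argument. -/

namespace Pool.Agent.H.MP_364e44_co
open Finset

section general
variable {n : ℕ} [NeZero n]

/-- indicator function -/
noncomputable def ind (B : Finset (ZMod n)) (x : ZMod n) : ℝ := if x ∈ B then 1 else 0

omit [NeZero n] in
lemma ind_nonneg (B : Finset (ZMod n)) (x : ZMod n) : 0 ≤ ind B x := by
  unfold ind; split_ifs <;> norm_num

lemma sum_ind (B : Finset (ZMod n)) : ∑ x, ind B x = B.card := by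
  unfold ind; simp

lemma conv_ind (A B : Finset (ZMod n)) (x : ZMod n) : conv (ind A) (ind B) x = rep A B x := by
  unfold conv ind rep
  push_cast
  refine sum_congr rfl fun y _ => ?_
  by_cases h1 : y ∈ A <;> by_cases h2 : x - y ∈ B <;> simp [h1, h2]

omit [NeZero n] in
lemma ind_neg {B : Finset (ZMod n)} (hsym : ∀ x ∈ B, -x ∈ B) (x : ZMod n) :
    ind B (-x) = ind B x := by
  unfold ind
  by_cases h : x ∈ B
  · simp [h, hsym x h]
  · have : -x ∉ B := fun h' => h (by simpa using hsym _ h')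
    simp [h, this]

lemma g_le {B : Finset (ZMod n)}
    (h4 : ∀ a ∈ B, ∀ b ∈ B, ∀ c ∈ B, ∀ d ∈ B, a + b = c + d → a + b ≠ 0 → a = c ∨ a = d)
    (y : ZMod n) : conv (ind B) (ind B) y ≤ 2 + if y = 0 then (B.card : ℝ) else 0 := by
  rw [conv_ind]
  split_ifs with hy
  · have : (rep B B y : ℝ) ≤ B.card := by exact_mod_cast rep_le B B y
    linarith
  · have : rep B B y ≤ 2 := by
      unfold rep
      rw [← card_filter]
      rcases (univ.filter (fun z => z ∈ B ∧ y - z ∈ B)).eq_empty_or_nonempty with h | ⟨c, hc⟩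
      · rw [h]; simp
      · have hc' := (mem_filter.1 hc).2
        refine (card_le_card (show _ ⊆ ({c, y - c} : Finset (ZMod n)) from ?_)).trans card_le_two
        intro a ha
        have ha' := (mem_filter.1 ha).2
        have := h4 a ha'.1 (y - a) ha'.2 c hc'.1 (y - c) hc'.2 (by ring) (by simpa using hy)
        simpa using this
    have : (rep B B y : ℝ) ≤ 2 := by exact_mod_cast this
    linarith

lemma card_sq_le {B : Finset (ZMod n)}
    (h4 : ∀ a ∈ B, ∀ b ∈ B, ∀ c ∈ B, ∀ d ∈ B, a + b = c + d → a + b ≠ 0 → a = c ∨ a = d) :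
    (B.card : ℝ) ^ 2 ≤ 4 * n := by
  have h := sum_conv (ind B) (ind B)
  rw [sum_ind] at h
  have h2 : ∑ y, conv (ind B) (ind B) y ≤ ∑ y : ZMod n, (2 + if y = 0 then (B.card : ℝ) else 0) :=
    sum_le_sum fun y _ => g_le h4 y
  rw [h, sum_add_distrib] at h2
  simp only [sum_const, card_univ, ZMod.card, nsmul_eq_mul, sum_ite_eq', mem_univ, if_true] at h2
  have hn : (1 : ℝ) ≤ n := by exact_mod_cast NeZero.pos n
  rcases le_or_gt (B.card : ℝ) 2 with h3 | h3
  · have : (0 : ℝ) ≤ B.card := by positivity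
    nlinarith
  · nlinarith

lemma energy_le {B : Finset (ZMod n)}
    (h4 : ∀ a ∈ B, ∀ b ∈ B, ∀ c ∈ B, ∀ d ∈ B, a + b = c + d → a + b ≠ 0 → a = c ∨ a = d) :
    conv (conv (ind B) (ind B)) (conv (ind B) (ind B)) 0 ≤ 3 * (B.card : ℝ) ^ 2 := by
  set g := conv (ind B) (ind B) with hg
  have hg0 : ∀ y, 0 ≤ g y := conv_nonneg (ind_nonneg B) (ind_nonneg B)
  have hs : ∑ y, g y = (B.card : ℝ) ^ 2 := by rw [hg, sum_conv, sum_ind]; ring
  have h0 : g 0 ≤ B.card := by rw [hg, conv_ind]; exact_mod_cast rep_le B B 0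
  calc conv g g 0 ≤ ∑ y, (2 * g y + if y = 0 then g y * (B.card : ℝ) else 0) := by
        refine sum_le_sum fun y _ => ?_
        have := mul_le_mul_of_nonneg_left (g_le h4 (0 - y)) (hg0 y)
        by_cases hy : y = 0
        · simp only [hy, sub_zero, if_true] at this ⊢
          rw [← hg] at this
          linarith
        · have hy' : 0 - y ≠ 0 := by simpa using hy
          simp only [hy, hy', if_false] at this ⊢
          rw [← hg] at this
          linarith
    _ = 2 * (B.card : ℝ) ^ 2 + g 0 * B.card := by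
        rw [sum_add_distrib, ← mul_sum, hs]; simp
    _ ≤ _ := by
        have : (0 : ℝ) ≤ B.card := by positivity
        nlinarith

lemma l2_le {B : Finset (ZMod n)} (hsym : ∀ x ∈ B, -x ∈ B)
    (h4 : ∀ a ∈ B, ∀ b ∈ B, ∀ c ∈ B, ∀ d ∈ B, a + b = c + d → a + b ≠ 0 → a = c ∨ a = d)
    (μ : ZMod n → ℝ) (hμ : ∀ x, 0 ≤ μ x) (hμ1 : ∑ x, μ x = 1) (m : ℝ) (hm : ∀ x, μ x ≤ m) :
    ∑ x, conv μ (ind B) x ^ 2 ≤ 2 + B.card * m := by
  have e1 : ∑ x, conv μ (ind B) x ^ 2 = ∑ u, ∑ v, μ u * μ v * conv (ind B) (ind B) (v - u) := by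
    have : ∀ x, conv μ (ind B) x ^ 2 =
        ∑ u, ∑ v, μ u * μ v * (ind B (x - u) * ind B (x - v)) := by
      intro x
      unfold conv
      rw [sq, sum_mul_sum]
      exact sum_congr rfl fun u _ => sum_congr rfl fun v _ => by ring
    simp_rw [this]
    rw [sum_comm]
    refine sum_congr rfl fun u _ => ?_
    rw [sum_comm]
    refine sum_congr rfl fun v _ => ?_
    rw [← mul_sum]
    congr 1
    unfold conv
    rw [← Equiv.sum_comp (Equiv.addRight u)]
    refine sum_congr rfl fun y _ => ?_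
    simp only [Equiv.coe_addRight, add_sub_cancel_right]
    rw [← ind_neg hsym (v - u - y)]
    congr 2; ring
  rw [e1]
  calc _ ≤ ∑ u, ∑ v, (2 * (μ u * μ v) + if v = u then μ u * (B.card * m) else 0) := by
        refine sum_le_sum fun u _ => sum_le_sum fun v _ => ?_
        have h := mul_le_mul_of_nonneg_left (g_le h4 (v - u)) (mul_nonneg (hμ u) (hμ v))
        by_cases hv : v = u
        · subst hv
          simp only [sub_self, if_true] at h ⊢
          have h3 : μ v * μ v * (B.card : ℝ) ≤ μ v * m * B.card :=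
            mul_le_mul_of_nonneg_right (mul_le_mul_of_nonneg_left (hm v) (hμ v)) (by positivity)
          nlinarith
        · have hv' : v - u ≠ 0 := sub_ne_zero.2 hv
          simp only [hv, hv', if_false] at h ⊢
          linarith
    _ = 2 + B.card * m := by
        simp only [sum_add_distrib, ← mul_sum, hμ1, sum_ite_eq', mem_univ, if_true, ← sum_mul]
        ring

lemma c5_ind_zero {B : Finset (ZMod n)}
    (h5 : ∀ a ∈ B, ∀ b ∈ B, ∀ c ∈ B, ∀ d ∈ B, ∀ e ∈ B, a + b + c + d + e ≠ 0) :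
    c5 (ind B) = 0 := by
  by_contra h
  have hb : ∀ x, ind B x ≠ 0 → x ∈ B := fun x hx => by
    by_contra h'; exact hx (by simp [ind, h'])
  obtain ⟨y, e, h1, he, h2⟩ := conv_ne_zero h
  obtain ⟨y1, y2, h3, h4, h6⟩ := conv_ne_zero h1
  obtain ⟨a, b, ha, hb', h7⟩ := conv_ne_zero h3
  obtain ⟨c, d, hc, hd, h8⟩ := conv_ne_zero h4
  refine h5 a (hb _ ha) b (hb _ hb') c (hb _ hc) d (hb _ hd) e (hb _ he) ?_
  rw [← h2, ← h6, ← h7, ← h8]; ring

lemma c5_mono {f g : ZMod n → ℝ} (hf : ∀ x, 0 ≤ f x) (h : ∀ x, f x ≤ g x) : c5 f ≤ c5 g := by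
  have h2 := conv_nonneg hf hf
  have h2' := conv_mono hf hf h h
  exact conv_mono (conv_nonneg h2 h2) hf (conv_mono h2 h2 h2' h2') h 0

lemma c5_smul (f : ZMod n → ℝ) (a : ℝ) : c5 (fun x => a * f x) = a ^ 5 * c5 f := by
  unfold c5
  have e2 : conv (fun x => a * f x) (fun x => a * f x) = fun x => (a * a) * conv f f x :=
    funext fun x => conv_smul f f a a x
  have e4 : conv (fun x => (a * a) * conv f f x) (fun x => (a * a) * conv f f x) =
      fun x => (a * a * (a * a)) * conv (conv f f) (conv f f) x :=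
    funext fun x => conv_smul _ _ _ _ x
  rw [e2, e4, conv_smul]; ring

lemma rep_ge (P : Finset (ZMod n)) (x : ZMod n) : 2 * P.card ≤ rep P P x + n := by
  have h1 : ∑ y : ZMod n, (if y ∈ P then 1 else 0) = P.card := by simp
  have h2 : ∑ y : ZMod n, (if x - y ∈ P then 1 else 0) = P.card := by
    rw [← Equiv.sum_comp (Equiv.subLeft x)]; simp
  have h3 : ∑ y : ZMod n, ((if y ∈ P then 1 else 0) + (if x - y ∈ P then 1 else 0)) ≤
      ∑ y : ZMod n, ((if y ∈ P ∧ x - y ∈ P then 1 else 0) + 1) := by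
    refine sum_le_sum fun y _ => ?_
    by_cases a : y ∈ P <;> by_cases b : x - y ∈ P <;> simp [a, b]
  rw [sum_add_distrib, sum_add_distrib, h1, h2] at h3
  simp only [sum_const, card_univ, ZMod.card, smul_eq_mul, mul_one] at h3
  unfold rep
  omega

end general

lemma c5_ind_ge {p : ℕ} [Fact p.Prime] (hp : 100 ≤ p) (S : Finset (ZMod p))
    (hS : 3 * p ≤ 10 * S.card) : (1 / 10 ^ 9 : ℝ) * p ^ 4 ≤ c5 (ind S) := by
  obtain ⟨T, hTS, hT⟩ := exists_subset_card_eq (s := S) (n := (3 * p + 9) / 10) (by omega)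
  have hmono : c5 (ind T) ≤ c5 (ind S) := by
    refine c5_mono (ind_nonneg T) fun x => ?_
    unfold ind
    by_cases h : x ∈ T
    · simp [h, hTS h]
    · simp only [h, if_false]; split_ifs <;> norm_num
  refine le_trans ?_ hmono
  set t := p / 50 with ht
  have hpol := pollard T.card T T t rfl (by omega) (by omega) (by omega)
  set P := univ.filter (fun x => t ≤ 50 * rep T T x) with hP
  have h1 : 50 * ∑ x, min t (rep T T x) ≤ 50 * t * P.card + t * p := by
    rw [mul_sum]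
    calc _ ≤ ∑ x : ZMod p, ((if x ∈ P then 50 * t else 0) + t) := by
          refine sum_le_sum fun x _ => ?_
          by_cases hx : x ∈ P
          · simp only [hx, if_true]; omega
          · have : ¬ t ≤ 50 * rep T T x := by simpa [hP] using hx
            simp only [hx, if_false]; omega
      _ = _ := by
          rw [sum_add_distrib]
          simp [ZMod.card, mul_comm]
  have ht0 : 0 < t := by omega
  have h2 : 100 * T.card ≤ 50 * P.card + p + 50 * t := by
    have : t * (100 * T.card) ≤ t * (50 * P.card + p + 50 * t) := by nlinarith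
    exact Nat.le_of_mul_le_mul_left this ht0
  have h3 : 56 * p ≤ 100 * P.card := by omega
  have hp0 : (100 : ℝ) ≤ p := by exact_mod_cast hp
  have h4 : ∀ x, ((p : ℝ) / 5000) * ind P x ≤ conv (ind T) (ind T) x := by
    intro x
    rw [conv_ind]
    unfold ind
    split_ifs with hx
    · have : t ≤ 50 * rep T T x := by simpa [hP] using hx
      have : p ≤ 5000 * rep T T x := by omega
      have : (p : ℝ) ≤ 5000 * rep T T x := by exact_mod_cast this
      linarith
    · simp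
  have h40 : ∀ x, 0 ≤ ((p : ℝ) / 5000) * ind P x := fun x =>
    mul_nonneg (by positivity) (ind_nonneg _ _)
  have h5 : ∀ x, ((p : ℝ) / 5000) ^ 2 * (12 / 100 * p) ≤
      conv (conv (ind T) (ind T)) (conv (ind T) (ind T)) x := by
    intro x
    refine le_trans ?_ (conv_mono h40 h40 h4 h4 x)
    rw [conv_smul, conv_ind, ← sq]
    refine mul_le_mul_of_nonneg_left ?_ (by positivity)
    have := rep_ge P x
    have : 12 * p ≤ 100 * rep P P x := by omega
    have : (12 : ℝ) * p ≤ 100 * rep P P x := by exact_mod_cast this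
    linarith
  have h6 := conv_mono (f := fun _ => ((p : ℝ) / 5000) ^ 2 * (12 / 100 * p)) (g := ind T)
    (fun _ => by positivity) (ind_nonneg T) h5 (fun _ => le_rfl) 0
  refine le_trans ?_ h6
  unfold conv
  have e : ∑ i, ind T (0 - i) = ∑ i, ind T i :=
    Equiv.sum_comp (Equiv.subLeft (0 : ZMod p)) (ind T)
  rw [← mul_sum, e, sum_ind]
  have h7 : 3 * p ≤ 10 * T.card := by omega
  have h7 : (3 : ℝ) * p ≤ 10 * T.card := by exact_mod_cast h7
  have h8 : ((p : ℝ) / 5000) ^ 2 * (12 / 100 * p) * (3 / 10 * p) ≤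
      ((p : ℝ) / 5000) ^ 2 * (12 / 100 * p) * T.card :=
    mul_le_mul_of_nonneg_left (by linarith) (by positivity)
  have h9 : (0 : ℝ) ≤ (p : ℝ) ^ 4 := by positivity
  nlinarith

theorem upper_aux (M : ℕ) (hM : 10 ^ 20 ≤ M) (C : ℕ)
    (hC : ∀ j ≤ 5 * M ^ 4, ((2 * M + 1) ^ 2) ^ j ≤ C) {p : ℕ} [Fact p.Prime]
    (hp : 2500 * C ^ 2 + 100 ≤ p) {B : Finset (ZMod p)} (hsym : ∀ x ∈ B, -x ∈ B)
    (h4 : ∀ a ∈ B, ∀ b ∈ B, ∀ c ∈ B, ∀ d ∈ B, a + b = c + d → a + b ≠ 0 → a = c ∨ a = d)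
    (h5 : ∀ a ∈ B, ∀ b ∈ B, ∀ c ∈ B, ∀ d ∈ B, ∀ e ∈ B, a + b + c + d + e ≠ 0) :
    (B.card : ℝ) ^ 2 ≤ 64 / 100 * p := by
  by_contra hcon
  push Not at hcon
  set k : ℝ := (B.card : ℝ) with hk
  have hp0 : (100 : ℝ) ≤ p := by exact_mod_cast (show 100 ≤ p by omega)
  have hk0 : 0 < k := by
    have : (0 : ℝ) ≤ k := by positivity
    rcases this.eq_or_lt with h | h
    · rw [← h] at hcon; nlinarith
    · exact h
  have hM0 : 0 < M := lt_of_lt_of_le (by positivity) hM
  have hMr : (10 : ℝ) ^ 20 ≤ M := by exact_mod_cast hM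
  have hMr0 : (0 : ℝ) < M := by exact_mod_cast hM0
  have hE : ∑ r, ‖hat (ind B) r‖ ^ 4 ≤ p * (3 * k ^ 2) := by
    rw [sum_norm_four (ind_neg hsym)]
    exact mul_le_mul_of_nonneg_left (energy_le h4) (by positivity)
  set Γ := univ.filter (fun r => k / M ≤ ‖hat (ind B) r‖) with hΓ
  have hΓc : Γ.card ≤ 5 * M ^ 4 := by
    have h1 : (Γ.card : ℝ) * (k / M) ^ 4 ≤ ∑ r, ‖hat (ind B) r‖ ^ 4 := by
      calc _ = ∑ r ∈ Γ, (k / M) ^ 4 := by simp
        _ ≤ ∑ r ∈ Γ, ‖hat (ind B) r‖ ^ 4 :=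
          sum_le_sum fun r hr => pow_le_pow_left₀ (by positivity) (mem_filter.1 hr).2 4
        _ ≤ _ := sum_le_sum_of_subset_of_nonneg (subset_univ _) fun _ _ _ => by positivity
    have h2 : (Γ.card : ℝ) * k ^ 4 ≤ p * (3 * k ^ 2) * M ^ 4 := by
      have := h1.trans hE
      rw [div_pow, ← mul_div_assoc, div_le_iff₀ (by positivity)] at this
      exact this
    have h3 : (p : ℝ) * (3 * k ^ 2) * M ^ 4 ≤ 5 * M ^ 4 * k ^ 4 := by
      have : (p : ℝ) * 3 ≤ 5 * k ^ 2 := by linarith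
      have h4 : (0 : ℝ) ≤ k ^ 2 * M ^ 4 := by positivity
      nlinarith [mul_le_mul_of_nonneg_right this h4]
    have h4 : (Γ.card : ℝ) ≤ 5 * M ^ 4 := le_of_mul_le_mul_right (h2.trans h3) (by positivity)
    exact_mod_cast h4
  obtain ⟨U, hU1, hU2⟩ := bohr M hM0 Γ
  have hU3 : p ≤ C * U.card := hU1.trans (Nat.mul_le_mul_right _ (hC _ hΓc))
  have hU0 : 0 < U.card := by
    rcases Nat.eq_zero_or_pos U.card with h | h
    · rw [h] at hU3; omega
    · exact h
  have hUr : (0 : ℝ) < U.card := by exact_mod_cast hU0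
  set μ : ZMod p → ℝ := fun x => (U.card : ℝ)⁻¹ * ind U x with hμ
  have hμ0 : ∀ x, 0 ≤ μ x := fun x => mul_nonneg (by positivity) (ind_nonneg _ _)
  have hμ1 : ∑ x, μ x = 1 := by
    simp only [hμ]; rw [← mul_sum, sum_ind]; field_simp
  have hμm : ∀ x, μ x ≤ (U.card : ℝ)⁻¹ := fun x => by
    simp only [hμ, ind]; split_ifs <;> simp
  have hμn : ∀ r, ‖hat μ r‖ ≤ 1 := fun r => hμ1 ▸ norm_hat_le hμ0 r
  have hμΓ : ∀ r ∈ Γ, ‖hat μ r - 1‖ ≤ 2 / M := by
    intro r hr
    have e : hat μ r - 1 = ∑ x, (μ x : ℂ) * (ch (r * x) - 1) := by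
      simp only [mul_sub, sum_sub_distrib, mul_one]
      rw [← Complex.ofReal_sum, hμ1]; rfl
    rw [e]
    calc _ ≤ ∑ x, μ x * (2 / M) := by
          refine (norm_sum_le _ _).trans (sum_le_sum fun x _ => ?_)
          rw [norm_mul, Complex.norm_real, Real.norm_of_nonneg (hμ0 x)]
          by_cases hx : x ∈ U
          · exact mul_le_mul_of_nonneg_left (hU2 r hr x hx) (hμ0 x)
          · simp [hμ, ind, hx]
      _ = _ := by rw [← sum_mul, hμ1, one_mul]
  set f := conv μ (ind B) with hf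
  have hf0 : ∀ x, 0 ≤ f x := conv_nonneg hμ0 (ind_nonneg B)
  have hf1 : ∑ x, f x = k := by rw [hf, sum_conv, hμ1, sum_ind, one_mul]
  -- upper bound for the five-fold convolution
  have hup : c5 f ≤ 30 / M * k ^ 3 := by
    have e0 := c5_eq (ind B)
    rw [c5_ind_zero h5] at e0
    have e1 := c5_eq f
    have e2 : (p : ℂ) * c5 f = ∑ r, hat (ind B) r ^ 5 * (hat μ r ^ 5 - 1) := by
      simp only [mul_sub, sum_sub_distrib, mul_one]
      rw [← e0, e1]
      simp only [hf, hat_conv, Complex.ofReal_zero, mul_zero, sub_zero]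
      exact sum_congr rfl fun r _ => by ring
    have e3 : ‖(p : ℂ) * c5 f‖ ≤ ∑ r, ‖hat (ind B) r‖ ^ 4 * (10 / M * k) := by
      rw [e2]
      refine (norm_sum_le _ _).trans (sum_le_sum fun r _ => ?_)
      rw [norm_mul, norm_pow, pow_succ _ 4, mul_assoc]
      refine mul_le_mul_of_nonneg_left ?_ (by positivity)
      by_cases hr : r ∈ Γ
      · have a1 : ‖hat (ind B) r‖ ≤ k := by
          have := norm_hat_le (ind_nonneg B) r
          rwa [sum_ind] at this
        have a2 := (norm_pow_five_sub_one (hμn r)).trans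
          (mul_le_mul_of_nonneg_left (hμΓ r hr) (by norm_num))
        calc _ ≤ k * (5 * (2 / M)) := mul_le_mul a1 a2 (norm_nonneg _) hk0.le
          _ = _ := by ring
      · have a1 : ‖hat (ind B) r‖ ≤ k / M := by
          have : ¬ k / M ≤ ‖hat (ind B) r‖ := by simpa [hΓ] using hr
          exact (not_le.1 this).le
        have a2 : ‖hat μ r ^ 5 - 1‖ ≤ 10 := by
          have b1 := norm_pow_five_sub_one (hμn r)
          have b2 := norm_sub_le (hat μ r) 1
          have b3 := hμn r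
          rw [norm_one] at b2
          linarith
        calc _ ≤ k / M * 10 := mul_le_mul a1 a2 (norm_nonneg _) (by positivity)
          _ = _ := by ring
    rw [← sum_mul, norm_mul, Complex.norm_real, Complex.norm_natCast] at e3
    have e4 := e3.trans (mul_le_mul_of_nonneg_right hE (by positivity))
    have e5 : (p : ℝ) * c5 f ≤ p * (30 / M * k ^ 3) := by
      calc (p : ℝ) * c5 f ≤ p * ‖c5 f‖ :=
            mul_le_mul_of_nonneg_left (le_abs_self _) (by positivity)
        _ ≤ _ := e4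
        _ = _ := by ring
    exact le_of_mul_le_mul_left e5 (by positivity)
  -- the level set
  have hl2 : ∑ x, f x ^ 2 ≤ 204 / 100 := by
    have a1 := l2_le hsym h4 μ hμ0 hμ1 _ hμm
    have a2 : k * (U.card : ℝ)⁻¹ ≤ 4 / 100 := by
      rw [← div_eq_mul_inv, div_le_iff₀ hUr]
      have b1 : k ^ 2 ≤ 4 * p := card_sq_le h4
      have b2 : (p : ℝ) ≤ C * U.card := by exact_mod_cast hU3
      have b3 : (2500 : ℝ) * C ^ 2 ≤ p := by exact_mod_cast (show 2500 * C ^ 2 ≤ p by omega)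
      have b4 : (p : ℝ) ^ 2 ≤ (C * U.card) ^ 2 := pow_le_pow_left₀ (by positivity) b2 2
      have b5 : (p : ℝ) * (2500 * p) ≤ p * U.card ^ 2 := by
        have : (2500 : ℝ) * C ^ 2 * U.card ^ 2 ≤ p * U.card ^ 2 :=
          mul_le_mul_of_nonneg_right b3 (by positivity)
        nlinarith
      have b6 : (2500 : ℝ) * p ≤ U.card ^ 2 := le_of_mul_le_mul_left b5 (by positivity)
      refine (pow_le_pow_iff_left₀ hk0.le (by positivity) two_ne_zero).1 ?_
      nlinarith
    linarith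
  set S := univ.filter (fun x => k / (50 * p) ≤ f x) with hS
  have hS1 : 49 / 50 * k ≤ ∑ x ∈ S, f x := by
    have a1 : ∑ x, f x ≤ ∑ x : ZMod p, ((if x ∈ S then f x else 0) + k / (50 * p)) := by
      refine sum_le_sum fun x _ => ?_
      by_cases hx : x ∈ S
      · simp only [hx, if_true]
        have : 0 ≤ k / (50 * p) := by positivity
        linarith
      · have : ¬ k / (50 * p) ≤ f x := by simpa [hS] using hx
        simp only [hx, if_false]; linarith
    rw [sum_add_distrib, hf1] at a1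
    simp only [sum_ite_mem, univ_inter, sum_const, card_univ, ZMod.card, nsmul_eq_mul] at a1
    have a2 : (p : ℝ) * (k / (50 * p)) = k / 50 := by field_simp
    linarith
  have hS2 : 3 * p ≤ 10 * S.card := by
    have a1 := sq_sum_le_card_mul_sum_sq (s := S) (f := f)
    have a2 : ∑ x ∈ S, f x ^ 2 ≤ 204 / 100 :=
      (sum_le_sum_of_subset_of_nonneg (subset_univ _) fun _ _ _ => by positivity).trans hl2
    have a3 : (49 / 50 * k) ^ 2 ≤ (∑ x ∈ S, f x) ^ 2 := pow_le_pow_left₀ (by positivity) hS1 2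
    have a4 : (S.card : ℝ) * ∑ x ∈ S, f x ^ 2 ≤ S.card * (204 / 100) :=
      mul_le_mul_of_nonneg_left a2 (by positivity)
    have a5 : (3 : ℝ) * p ≤ 10 * S.card := by nlinarith
    exact_mod_cast a5
  have hlow : (k / (50 * p)) ^ 5 * ((1 / 10 ^ 9 : ℝ) * p ^ 4) ≤ c5 f := by
    refine le_trans (mul_le_mul_of_nonneg_left (c5_ind_ge (by omega) S hS2) (by positivity)) ?_
    rw [← c5_smul]
    refine c5_mono (fun x => mul_nonneg (by positivity) (ind_nonneg _ _)) fun x => ?_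
    unfold ind
    split_ifs with hx
    · simpa [hS] using hx
    · simpa using hf0 x
  have e : (k / (50 * p)) ^ 5 * ((1 / 10 ^ 9 : ℝ) * p ^ 4) =
      (k ^ 2 / p / (50 ^ 5 * 10 ^ 9)) * k ^ 3 := by field_simp
  rw [e] at hlow
  have h6 : k ^ 2 / p / (50 ^ 5 * 10 ^ 9) ≤ 30 / M :=
    le_of_mul_le_mul_right (hlow.trans hup) (by positivity)
  have h7 : 64 / 100 ≤ k ^ 2 / p := by rw [le_div_iff₀ (by positivity)]; linarith
  have h8 : (30 : ℝ) / M ≤ 30 / 10 ^ 20 := div_le_div_of_nonneg_left (by norm_num) (by positivity) hMr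
  have h9 : (64 / 100 : ℝ) / (50 ^ 5 * 10 ^ 9) ≤ k ^ 2 / p / (50 ^ 5 * 10 ^ 9) :=
    div_le_div_of_nonneg_right h7 (by positivity)
  have := h9.trans (h6.trans h8)
  norm_num at this

theorem upper : ∃ p0 : ℕ, ∀ (p : ℕ) [Fact p.Prime], p0 ≤ p → ∀ B : Finset (ZMod p),
    (∀ x ∈ B, -x ∈ B) →
    (∀ a ∈ B, ∀ b ∈ B, ∀ c ∈ B, ∀ d ∈ B, a + b = c + d → a + b ≠ 0 → a = c ∨ a = d) →
    (∀ a ∈ B, ∀ b ∈ B, ∀ c ∈ B, ∀ d ∈ B, ∀ e ∈ B, a + b + c + d + e ≠ 0) →
    (B.card : ℝ) ^ 2 ≤ 64 / 100 * p := by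
  obtain ⟨M, hM⟩ : ∃ M : ℕ, 10 ^ 20 ≤ M := ⟨_, le_rfl⟩
  obtain ⟨C, hC⟩ : ∃ C : ℕ, ∀ j ≤ 5 * M ^ 4, ((2 * M + 1) ^ 2) ^ j ≤ C :=
    ⟨((2 * M + 1) ^ 2) ^ (5 * M ^ 4), fun j hj => Nat.pow_le_pow_right (by positivity) hj⟩
  exact ⟨2500 * C ^ 2 + 100, fun p _ hp B h1 h2 h3 => upper_aux M hM C hC hp h1 h2 h3⟩

end Pool.Agent.H.MP_364e44_co
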